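import Pool.Agent.Helper45.CF.GoalsD

/-!
# Packet CF2-MVC (project CAR FIELDS stage 2, MP_d97caa_an): Mayer-Vietoris
-/

open scoped ComplexOrder ZeroAtInfty Topology ComplexConjugate NNReal
open TopologicalSpace

namespace Pool.Agent.Helper8.CF2.MVC

open Pool.Agent.Helper34.CAR Pool.Agent.Helper39.CR Pool.Agent.Helper45.CF
  Pool.Agent.Helper13.CF2

noncomputable section

set_option linter.unusedSectionVars false

/-- the ideal of a closed subset has vanishing theories -/
theorem zero_van (T : Theory) {X Y : Type} [TopologicalSpace X] [CompactSpace X] [T2Space X]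
    [SecondCountableTopology X] [TopologicalSpace Y] [CompactSpace Y] [T2Space Y]
    [SecondCountableTopology Y] (e : C(X, Y)) (he : Function.Injective e)
    (hY : T.Zero C(Y, ℂ)) (hX : T.Zero C(X, ℂ)) : T.Zero (van ℂ e) := by
  have sJ : SeparableSpace (van ℂ e) := inferInstance
  refine zero_ideal T (vinc ℂ e) (pull ℂ e) (fun a b h => Subtype.ext h)
    (c_TIE X Y ℂ e he) ?_ hY hX
  intro a
  constructor
  · intro h
    exact ⟨⟨a, fun x => DFunLike.congr_fun h x⟩, rfl⟩
  · rintro ⟨f, rfl⟩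
    ext x
    exact f.2 x

/-- from the ideal and the quotient to the algebra -/
theorem zero_of_van (T : Theory) {X Y : Type} [TopologicalSpace X] [CompactSpace X] [T2Space X]
    [SecondCountableTopology X] [TopologicalSpace Y] [CompactSpace Y] [T2Space Y]
    [SecondCountableTopology Y] (e : C(X, Y)) (he : Function.Injective e)
    (hJ : T.Zero (van ℂ e)) (hX : T.Zero C(X, ℂ)) : T.Zero C(Y, ℂ) := by
  have sJ : SeparableSpace (van ℂ e) := inferInstance
  intro i x
  have hb := bij_of_ext T i (vinc ℂ e) (pull ℂ e) (fun a b h => Subtype.ext h)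
    (c_TIE X Y ℂ e he) (by
      intro a
      constructor
      · intro h
        exact ⟨⟨a, fun x => DFunLike.congr_fun h x⟩, rfl⟩
      · rintro ⟨f, rfl⟩
        ext x
        exact f.2 x) hJ
  obtain ⟨y, rfl⟩ := hb.2 x
  rw [hX i y, map_zero]

variable {Q : Type} [TopologicalSpace Q] [T2Space Q] (K L : Set Q)

/-- the inclusion of `K` in the union -/
def inK : C(K, ↥(K ∪ L)) := ⟨fun x => ⟨x.1, Or.inl x.2⟩, by fun_prop⟩

/-- the inclusion of `L` in the union -/
def inL : C(L, ↥(K ∪ L)) := ⟨fun x => ⟨x.1, Or.inr x.2⟩, by fun_prop⟩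

/-- the inclusion of the intersection in `L` -/
def inI : C(↥(K ∩ L), L) := ⟨fun x => ⟨x.1, x.2.2⟩, by fun_prop⟩

variable [CompactSpace K] [CompactSpace L] [CompactSpace ↥(K ∩ L)] [CompactSpace ↥(K ∪ L)]

/-- the restriction -/
def rst : van ℂ (inK K L) →⋆ₙₐ[ℂ] van ℂ (inI K L) where
  toFun f := ⟨f.1.comp (inL K L), fun x => f.2 ⟨x.1, x.2.1⟩⟩
  map_smul' _ _ := rfl
  map_zero' := rfl
  map_add' _ _ := rfl
  map_mul' _ _ := rfl
  map_star' _ := rfl

open Classical in
/-- the extension by zero -/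
def extz (g : van ℂ (inI K L)) : ↥(K ∪ L) → ℂ := fun x =>
  if h : x.1 ∈ L then g.1 ⟨x.1, h⟩ else 0

theorem extz_K (g : van ℂ (inI K L)) {x : ↥(K ∪ L)} (hx : x.1 ∈ K) : extz K L g x = 0 := by
  unfold extz
  split_ifs with h
  · exact g.2 ⟨x.1, hx, h⟩
  · rfl

theorem extz_L (g : van ℂ (inI K L)) {x : ↥(K ∪ L)} (hx : x.1 ∈ L) :
    extz K L g x = g.1 ⟨x.1, hx⟩ := by
  unfold extz
  rw [dif_pos hx]

theorem extz_cont (g : van ℂ (inI K L)) : Continuous (extz K L g) := by
  have hKc : IsClosed K := (isCompact_iff_compactSpace.mpr inferInstance).isClosed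
  have hLc : IsClosed L := (isCompact_iff_compactSpace.mpr inferInstance).isClosed
  have h1 : ContinuousOn (extz K L g) {x : ↥(K ∪ L) | x.1 ∈ K} :=
    (continuousOn_const (c := (0 : ℂ))).congr fun x hx => extz_K K L g hx
  have h2 : ContinuousOn (extz K L g) {x : ↥(K ∪ L) | x.1 ∈ L} := by
    rw [continuousOn_iff_continuous_domRestrict]
    have h3 : Set.domRestrict {x : ↥(K ∪ L) | x.1 ∈ L} (extz K L g)
        = fun y => g.1 ⟨y.1.1, y.2⟩ := by
      funext y
      exact extz_L K L g y.2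
    rw [h3]
    exact g.1.continuous.comp (by fun_prop)
  have h4 := h1.union_of_isClosed h2 (hKc.preimage continuous_subtype_val)
    (hLc.preimage continuous_subtype_val)
  have h5 : {x : ↥(K ∪ L) | x.1 ∈ K} ∪ {x : ↥(K ∪ L) | x.1 ∈ L} = Set.univ := by
    ext x
    exact ⟨fun _ => trivial, fun _ => x.2⟩
  rw [h5] at h4
  exact continuousOn_univ.mp h4

theorem rst_bij : Function.Bijective (rst K L) := by
  constructor
  · intro f g h
    refine Subtype.ext (ContinuousMap.ext fun x => ?_)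
    rcases x.2 with hx | hx
    · exact (f.2 ⟨x.1, hx⟩).trans (g.2 ⟨x.1, hx⟩).symm
    · exact DFunLike.congr_fun (congrArg Subtype.val h) ⟨x.1, hx⟩
  · intro g
    refine ⟨⟨⟨extz K L g, extz_cont K L g⟩, fun x => extz_K K L g x.2⟩, ?_⟩
    refine Subtype.ext (ContinuousMap.ext fun x => ?_)
    exact extz_L K L g x.2

end

theorem t : S_MVC := by
  intro T Q _ _ _ K L _ _ _ _ hK hL hI
  have hJ' : T.Zero (van ℂ (inI K L)) := zero_van T (inI K L)
    (fun a b h => Subtype.ext (congrArg (fun z : L => z.1) h)) hL hI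
  have s1 : SeparableSpace (van ℂ (inI K L)) := inferInstance
  have s2 : SeparableSpace (van ℂ (inK K L)) := inferInstance
  let E := StarAlgEquiv.ofBijective (rst K L) (rst_bij K L)
  have hJ : T.Zero (van ℂ (inK K L)) :=
    zero_iso T (E.symm : van ℂ (inI K L) →⋆ₙₐ[ℂ] van ℂ (inK K L)) (rst K L)
      (fun b => E.symm_apply_apply b) (fun a => E.apply_symm_apply a) hJ'
  exact zero_of_van T (inK K L)
    (fun a b h => Subtype.ext (congrArg (fun z : ↥(K ∪ L) => z.1) h)) hJ hK

end Pool.Agent.Helper8.CF2.MVC
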